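import Pool.Agent.Hhelper97.Horo.Defs

/-!
# The minimum number of horocycles determined by `n` points
-/

set_option autoImplicit false

open Finset UpperHalfPlane

namespace Pool.Agent.HoroSmall

open Pool.Agent.Hhelper97.Horo

/-- The minimum of `h P` over the sets `P` of `n` points. -/
noncomputable def m (n : ℕ) : ℕ := sInf {k | ∃ P : Finset ℍ, #P = n ∧ h P = k}

end Pool.Agent.HoroSmall
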