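import Pool.Agent.Hhelper97.Horo.Main
import Pool.Agent.HoroSmall.DefM

/-!
# Horocycles through two and three points, and the counting formula
-/

set_option autoImplicit false

open Finset UpperHalfPlane

namespace Pool.Agent.HoroSmall

open Pool.Agent.Hhelper97.Horo

/-! ### two points -/

theorem circ_inj {x r x' r' : ℝ} (hr : 0 < r) (hr' : 0 < r') (h : circ x r = circ x' r') :
    x = x' ∧ r = r' := by
  have h1 : mkP x (2 * r) (by positivity) ∈ circ x' r' := by
    rw [← h, mem_circ]; simp only [mkP_re, mkP_im]; ring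
  have h2 : mkP x' (2 * r') (by positivity) ∈ circ x r := by
    rw [h, mem_circ]; simp only [mkP_re, mkP_im]; ring
  rw [mem_circ] at h1 h2
  simp only [mkP_re, mkP_im] at h1 h2
  have h3 : (x - x') ^ 2 + 2 * (r - r') ^ 2 = 0 := by linear_combination (1 / 2) * h1 + (1 / 2) * h2
  have h4 : (x - x') ^ 2 = 0 := by nlinarith [sq_nonneg (x - x'), sq_nonneg (r - r')]
  have h5 : (r - r') ^ 2 = 0 := by nlinarith [sq_nonneg (x - x'), sq_nonneg (r - r')]
  exact ⟨sub_eq_zero.1 (pow_eq_zero_iff two_ne_zero |>.1 h4),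
    sub_eq_zero.1 (pow_eq_zero_iff two_ne_zero |>.1 h5)⟩

theorem circ_ne_hline {x r c : ℝ} (hr : 0 < r) : circ x r ≠ hline c := by
  intro h
  have h1 : mkP x (2 * r) (by positivity) ∈ hline c := by
    rw [← h, mem_circ]; simp only [mkP_re, mkP_im]; ring
  have h2 : mkP (x + r) r hr ∈ hline c := by
    rw [← h, mem_circ]; simp only [mkP_re, mkP_im]; ring
  rw [mem_hline] at h1 h2
  simp only [mkP_im] at h1 h2
  linarith

theorem hline_inj {c c' : ℝ} (hc : 0 < c) (h : hline c = hline c') : c = c' := by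
  have h1 : mkP 0 c hc ∈ hline c' := by rw [← h]; rfl
  exact h1

/-- through two different points there are exactly two horocycles -/
theorem two_through {p q : ℍ} (hpq : p ≠ q) : ∃ K₁ K₂ : Set ℍ, IsHorocycle K₁ ∧ IsHorocycle K₂ ∧
    K₁ ≠ K₂ ∧ p ∈ K₁ ∧ q ∈ K₁ ∧ p ∈ K₂ ∧ q ∈ K₂ ∧
    ∀ H, IsHorocycle H → p ∈ H → q ∈ H → H = K₁ ∨ H = K₂ := by
  have y1 := p.im_pos
  have y2 := q.im_pos
  -- the radius of the circle with centre `t` through `p`
  have hrad : ∀ t r : ℝ, (p.re - t) ^ 2 + p.im ^ 2 = 2 * r * p.im →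
      r = ((p.re - t) ^ 2 + p.im ^ 2) / (2 * p.im) := by
    intro t r h
    rw [h]; field_simp
  have hpos : ∀ t : ℝ, 0 < ((p.re - t) ^ 2 + p.im ^ 2) / (2 * p.im) := by
    intro t; positivity
  have hmem : ∀ t : ℝ, p ∈ circ t (((p.re - t) ^ 2 + p.im ^ 2) / (2 * p.im)) := by
    intro t
    rw [mem_circ]; field_simp
  have hmem' : ∀ t : ℝ, q.im * ((p.re - t) ^ 2 + p.im ^ 2) = p.im * ((q.re - t) ^ 2 + q.im ^ 2) →
      q ∈ circ t (((p.re - t) ^ 2 + p.im ^ 2) / (2 * p.im)) := by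
    intro t h
    rw [mem_circ]; field_simp
    linear_combination -h
  by_cases him : p.im = q.im
  · have hre : p.re - q.re ≠ 0 := by
      intro h
      exact hpq (UpperHalfPlane.ext_re_im (sub_eq_zero.1 h) him)
    refine ⟨hline p.im, circ ((p.re + q.re) / 2) _, Or.inl ⟨_, y1, rfl⟩,
      Or.inr ⟨_, _, hpos ((p.re + q.re) / 2), rfl⟩, (circ_ne_hline (hpos _)).symm, rfl, him.symm,
      hmem _, hmem' _ ?_, ?_⟩
    · rw [← him]; ring
    · rintro H (⟨c, hc, rfl⟩ | ⟨t, r, hr, rfl⟩) hp hq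
      · left
        rw [mem_hline] at hp
        rw [hp]
      · right
        rw [mem_circ] at hp hq
        have h1 : (p.re - q.re) * (p.re + q.re - 2 * t) = 0 := by
          rw [← him] at hq
          linear_combination hp - hq
        have h2 : t = (p.re + q.re) / 2 := by
          have := (mul_eq_zero.1 h1).resolve_left hre
          linarith
        rw [hrad t r hp, h2]
  · have hd : q.im - p.im ≠ 0 := fun h => him (sub_eq_zero.1 h).symm
    set D : ℝ := p.im * q.im * ((p.re - q.re) ^ 2 + (p.im - q.im) ^ 2) with hD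
    have hDpos : 0 < D := by
      have : 0 < (p.im - q.im) ^ 2 := by
        have : p.im - q.im ≠ 0 := sub_ne_zero.2 him
        positivity
      rw [hD]; positivity
    have hs := Real.sq_sqrt hDpos.le
    have hs0 := Real.sqrt_pos.2 hDpos
    set s := Real.sqrt D with hsdef
    set b : ℝ := q.im * p.re - p.im * q.re with hb
    -- the quadratic equation
    have hquad : ∀ t : ℝ, q.im * ((p.re - t) ^ 2 + p.im ^ 2) -
        p.im * ((q.re - t) ^ 2 + q.im ^ 2) =
        (q.im - p.im) * (t - (b + s) / (q.im - p.im)) * (t - (b - s) / (q.im - p.im)) := by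
      intro t
      have h1 : b ^ 2 - s ^ 2 = (q.im - p.im) *
          (q.im * (p.re ^ 2 + p.im ^ 2) - p.im * (q.re ^ 2 + q.im ^ 2)) := by
        rw [hs, hD, hb]; ring
      field_simp
      linear_combination -h1 + 2 * t * (q.im - p.im) * hb
    have hroot : ∀ t : ℝ, (t = (b + s) / (q.im - p.im) ∨ t = (b - s) / (q.im - p.im)) →
        q.im * ((p.re - t) ^ 2 + p.im ^ 2) = p.im * ((q.re - t) ^ 2 + q.im ^ 2) := by
      intro t ht
      have h1 := hquad t
      rcases ht with ht | ht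
      · rw [sub_eq_zero.2 ht] at h1
        linarith
      · rw [sub_eq_zero.2 ht] at h1
        linarith
    refine ⟨circ ((b + s) / (q.im - p.im)) _, circ ((b - s) / (q.im - p.im)) _,
      Or.inr ⟨_, _, hpos ((b + s) / (q.im - p.im)), rfl⟩,
      Or.inr ⟨_, _, hpos ((b - s) / (q.im - p.im)), rfl⟩, ?_, hmem _,
      hmem' _ (hroot _ (Or.inl rfl)), hmem _, hmem' _ (hroot _ (Or.inr rfl)), ?_⟩
    · intro h
      have h1 := (circ_inj (hpos _) (hpos _) h).1
      rw [div_eq_div_iff hd hd] at h1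
      have h2 := mul_right_cancel₀ hd h1
      linarith
    · rintro H (⟨c, hc, rfl⟩ | ⟨t, r, hr, rfl⟩) hp hq
      · rw [mem_hline] at hp hq
        exact absurd (hp.trans hq.symm) him
      · rw [mem_circ] at hp hq
        have h1 := hquad t
        have h2 : q.im * ((p.re - t) ^ 2 + p.im ^ 2) - p.im * ((q.re - t) ^ 2 + q.im ^ 2) = 0 := by
          rw [hp, hq]; ring
        rw [h2] at h1
        rw [hrad t r hp]
        rcases mul_eq_zero.1 h1.symm with h3 | h3
        · rcases mul_eq_zero.1 h3 with h4 | h4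
          · exact absurd h4 hd
          · left; rw [sub_eq_zero.1 h4]
        · right; rw [sub_eq_zero.1 h3]

/-- a horocycle through two points is one of two given ones -/
theorem mem_of_two {p q : ℍ} (hpq : p ≠ q) {K₁ K₂ : Set ℍ} (h₁ : IsHorocycle K₁)
    (h₂ : IsHorocycle K₂) (hne : K₁ ≠ K₂) (hp₁ : p ∈ K₁) (hq₁ : q ∈ K₁) (hp₂ : p ∈ K₂)
    (hq₂ : q ∈ K₂) {H : Set ℍ} (hH : IsHorocycle H) (hp : p ∈ H) (hq : q ∈ H) :
    H = K₁ ∨ H = K₂ := by
  obtain ⟨L₁, L₂, _, _, _, _, _, _, _, h⟩ := two_through hpq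
  have a := h _ h₁ hp₁ hq₁
  have b := h _ h₂ hp₂ hq₂
  have c := h _ hH hp hq
  rcases a with rfl | rfl <;> rcases b with rfl | rfl
  · exact absurd rfl hne
  · exact c
  · exact c.symm
  · exact absurd rfl hne

/-! ### three points -/

theorem three_unique {p q s : ℍ} (hpq : p ≠ q) (hps : p ≠ s) (hqs : q ≠ s) {K K' : Set ℍ}
    (hK : IsHorocycle K) (hK' : IsHorocycle K') (hp : p ∈ K) (hq : q ∈ K) (hs : s ∈ K)
    (hp' : p ∈ K') (hq' : q ∈ K') (hs' : s ∈ K') : K = K' := by
  obtain ⟨φ, hφ, hpre, hH⟩ := exists_isom hK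
  by_contra hne
  -- the points on the line of height one
  have e : ∀ z ∈ K, φ z = pt (φ z).re := by
    intro z hz
    have h1 := (hH z).1 hz
    exact UpperHalfPlane.ext_re_im rfl h1
  have a1 : (φ p).re ≠ (φ q).re := by
    intro h
    apply hpq
    apply hφ.injective
    rw [e p hp, e q hq, h]
  have a2 : (φ p).re ≠ (φ s).re := by
    intro h
    apply hps
    apply hφ.injective
    rw [e p hp, e s hs, h]
  have a3 : (φ q).re ≠ (φ s).re := by
    intro h
    apply hqs
    apply hφ.injective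
    rw [e q hq, e s hs, h]
  -- the second horocycle through `p`, `q`
  have hne2 : φ ⁻¹' (hor (φ p).re (φ q).re) ≠ K := by
    intro h
    have h1 : s ∈ φ ⁻¹' (hor (φ p).re (φ q).re) := by rw [h]; exact hs
    rw [Set.mem_preimage, e s hs, pt_mem_hor] at h1
    rcases h1 with h1 | h1
    · exact a2 h1.symm
    · exact a3 h1.symm
  have h2 := mem_of_two hpq hK (hpre _ (isHorocycle_hor (φ p).re (φ q).re)) hne2.symm hp hq
    (by rw [Set.mem_preimage, e p hp, pt_mem_hor]; left; rfl)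
    (by rw [Set.mem_preimage, e q hq, pt_mem_hor]; right; rfl) hK' hp' hq'
  rcases h2 with h2 | h2
  · exact hne h2.symm
  · rw [h2, Set.mem_preimage, e s hs, pt_mem_hor] at hs'
    rcases hs' with h1 | h1
    · exact a2 h1.symm
    · exact a3 h1.symm

/-! ### the determined horocycles as a finite set -/

/-- the determined horocycles -/
noncomputable def det (P : Finset ℍ) : Finset (Set ℍ) := (determined_finite P).toFinset

theorem mem_det {P : Finset ℍ} {H : Set ℍ} : H ∈ det P ↔ IsHorocycle H ∧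
    ∃ p ∈ P, ∃ q ∈ P, p ≠ q ∧ p ∈ H ∧ q ∈ H := by
  unfold det
  rw [Set.Finite.mem_toFinset]
  rfl

theorem card_det (P : Finset ℍ) : #(det P) = h P := by
  unfold det h
  rw [Set.ncard_eq_toFinset_card _ (determined_finite P)]

open Classical in
/-- the number of points of `P` on `H` -/
noncomputable def cnt (P : Finset ℍ) (H : Set ℍ) : ℕ := #{p ∈ P | p ∈ H}

theorem two_le_cnt {P : Finset ℍ} {H : Set ℍ} (hH : H ∈ det P) : 2 ≤ cnt P H := by
  classical
  obtain ⟨_, p, hp, q, hq, hpq, hpH, hqH⟩ := mem_det.1 hH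
  have h1 : 1 < #{p ∈ P | p ∈ H} :=
    one_lt_card.2 ⟨p, mem_filter.2 ⟨hp, hpH⟩, q, mem_filter.2 ⟨hq, hqH⟩, hpq⟩
  exact h1

theorem ncard_eq_cnt (P : Finset ℍ) (H : Set ℍ) : ((P : Set ℍ) ∩ H).ncard = cnt P H := by
  classical
  have h1 : ((P : Set ℍ) ∩ H) = (({p ∈ P | p ∈ H} : Finset ℍ) : Set ℍ) := by
    ext z; simp
  unfold cnt
  rw [h1, Set.ncard_coe_finset]

open Classical in
/-- every pair of points lies on exactly two determined horocycles -/
theorem card_through {P : Finset ℍ} {p q : ℍ} (hp : p ∈ P) (hq : q ∈ P) (hpq : p ≠ q) :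
    #{H ∈ det P | p ∈ H ∧ q ∈ H} = 2 := by
  obtain ⟨K₁, K₂, h1, h2, hne, p1, q1, p2, q2, h3⟩ := two_through hpq
  rw [card_eq_two]
  refine ⟨K₁, K₂, hne, ?_⟩
  ext H
  rw [mem_filter, mem_det, mem_insert, mem_singleton]
  constructor
  · rintro ⟨⟨hH, _⟩, hpH, hqH⟩
    exact h3 H hH hpH hqH
  · rintro (rfl | rfl)
    · exact ⟨⟨h1, p, hp, q, hq, hpq, p1, q1⟩, p1, q1⟩
    · exact ⟨⟨h2, p, hp, q, hq, hpq, p2, q2⟩, p2, q2⟩

/-- the counting formula -/
theorem sum_formula (P : Finset ℍ) :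
    ∑ H ∈ det P, cnt P H * (cnt P H - 1) = 2 * (#P * (#P - 1)) := by
  classical
  have h1 : ∀ H : Set ℍ, cnt P H * (cnt P H - 1) = #{x ∈ P.offDiag | x.1 ∈ H ∧ x.2 ∈ H} := by
    intro H
    have h2 : {x ∈ P.offDiag | x.1 ∈ H ∧ x.2 ∈ H} = ({p ∈ P | p ∈ H} : Finset ℍ).offDiag := by
      ext x
      simp only [mem_filter, mem_offDiag]
      tauto
    rw [h2, offDiag_card, Nat.mul_sub, mul_one]
    rfl
  simp only [h1]
  have h3 := sum_card_bipartiteAbove_eq_sum_card_bipartiteBelow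
    (s := P.offDiag) (t := det P) (fun (x : ℍ × ℍ) (H : Set ℍ) => x.1 ∈ H ∧ x.2 ∈ H)
  unfold bipartiteAbove bipartiteBelow at h3
  rw [← h3]
  have h4 : ∀ x ∈ P.offDiag, #{H ∈ det P | x.1 ∈ H ∧ x.2 ∈ H} = 2 := by
    intro x hx
    rw [mem_offDiag] at hx
    exact card_through hx.1 hx.2.1 hx.2.2
  rw [sum_congr rfl h4, sum_const, offDiag_card, smul_eq_mul, Nat.mul_sub, mul_one, mul_comm]

/-! ### one point off the line -/

theorem hor_ne_hline' (a b : ℝ) : hor a b ≠ hline 1 := by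
  intro h
  have h2 : pt (|a| + |b| + 1) ∈ hor a b := by rw [h]; exact pt_mem_hline _
  rw [pt_mem_hor] at h2
  have ha := le_abs_self a
  have hb := le_abs_self b
  have ha' := abs_nonneg a
  have hb' := abs_nonneg b
  rcases h2 with h2 | h2 <;> linarith

theorem hline_notMem_pairs' (A : Finset ℝ) : hline 1 ∉ pairs A := by
  classical
  intro h
  obtain ⟨⟨a, b⟩, _, h1⟩ := mem_image.1 h
  exact hor_ne_hline' a b h1

theorem mem_pairs_det {A : Finset ℝ} {P : Finset ℍ} (hP : ∀ a ∈ A, pt a ∈ P) {K : Set ℍ}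
    (hK : K ∈ pairs A) : K ∈ determined P := by
  classical
  obtain ⟨⟨a, b⟩, hab, rfl⟩ := mem_image.1 hK
  rw [mem_offDiag] at hab
  exact ⟨isHorocycle_hor a b, pt a, hP a hab.1, pt b, hP b hab.2.1,
    fun h => hab.2.2 (pt_injective h), pt_mem_hor.2 (Or.inl rfl), pt_mem_hor.2 (Or.inr rfl)⟩

theorem hline_det {A : Finset ℝ} (hA : 2 ≤ #A) {P : Finset ℍ} (hP : ∀ a ∈ A, pt a ∈ P) :
    hline 1 ∈ determined P := by
  obtain ⟨a, ha, b, hb, hab⟩ := one_lt_card.1 (by omega : 1 < #A)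
  exact ⟨isHorocycle_hline one_pos, pt a, hP a ha, pt b, hP b hb,
    fun h => hab (pt_injective h), pt_mem_hline a, pt_mem_hline b⟩

/-- all points on the line -/
theorem count_zero {A : Finset ℝ} (hA : 2 ≤ #A) {P : Finset ℍ} (hP : ∀ a ∈ A, pt a ∈ P) :
    (#A).choose 2 + 1 ≤ h P := by
  classical
  have h1 : #(insert (hline 1) (pairs A)) = #(pairs A) + 1 :=
    card_insert_of_notMem (hline_notMem_pairs' A)
  have h2 := card_pairs A
  have h3 : #(insert (hline 1) (pairs A)) ≤ h P := by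
    apply ncard_ge
    intro K hK
    rcases mem_insert.1 hK with rfl | hK
    · exact hline_det hA hP
    · exact mem_pairs_det hP hK
  omega

/-- one point `p` off the line -/
theorem count_one {A : Finset ℝ} (hA : 2 ≤ #A) {p : ℍ} (hp : p.im ≠ 1)
    {M : Finset (Set ℍ)}
    (h1 : ∀ K ∈ M, IsHorocycle K ∧ p ∈ K ∧ ∃ a ∈ A, pt a ∈ K ∧ ∀ c ∈ A, pt c ∈ K → c = a)
    {P : Finset ℍ} (hpP : p ∈ P) (hP : ∀ a ∈ A, pt a ∈ P) :
    (#A).choose 2 + 1 + #M ≤ h P := by
  classical
  have hp1 : p ∉ hline 1 := fun h => hp h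
  have d1 : Disjoint (insert (hline 1) (pairs A)) M := by
    rw [disjoint_left]
    intro K hK hK1
    obtain ⟨_, h2, a, ha, h3, h4⟩ := h1 K hK1
    rcases mem_insert.1 hK with rfl | hK
    · exact hp1 h2
    · obtain ⟨⟨b, c⟩, hbc, rfl⟩ := mem_image.1 hK
      rw [mem_offDiag] at hbc
      have h5 := h4 b hbc.1 (pt_mem_hor.2 (Or.inl rfl))
      have h6 := h4 c hbc.2.1 (pt_mem_hor.2 (Or.inr rfl))
      exact hbc.2.2 (h5.trans h6.symm)
  have h2 : #(insert (hline 1) (pairs A) ∪ M) = #(pairs A) + 1 + #M := by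
    rw [card_union_of_disjoint d1, card_insert_of_notMem (hline_notMem_pairs' A)]
  have h3 := card_pairs A
  have h4 : #(insert (hline 1) (pairs A) ∪ M) ≤ h P := by
    apply ncard_ge
    intro K hK
    rcases mem_union.1 hK with hK | hK
    · rcases mem_insert.1 hK with rfl | hK
      · exact hline_det hA hP
      · exact mem_pairs_det hP hK
    · obtain ⟨h5, h6, a, ha, h7, _⟩ := h1 K hK
      exact ⟨h5, p, hpP, pt a, hP a ha, fun h => hp (by rw [h]; rfl), h6, h7⟩
  omega

/-- the points of `Q` on the line of height one -/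
noncomputable def onLine (Q : Finset ℍ) : Finset ℝ := by
  classical
  exact ({z ∈ Q | z.im = 1} : Finset ℍ).image (fun z : ℍ => z.re)

theorem mem_onLine {Q : Finset ℍ} {a : ℝ} : a ∈ onLine Q ↔ pt a ∈ Q := by
  classical
  unfold onLine
  rw [mem_image]
  constructor
  · rintro ⟨z, hz, rfl⟩
    rw [mem_filter] at hz
    have : pt z.re = z := UpperHalfPlane.ext_re_im rfl hz.2.symm
    rw [this]
    exact hz.1
  · intro h
    exact ⟨pt a, mem_filter.2 ⟨h, rfl⟩, rfl⟩

theorem card_onLine (Q : Finset ℍ) : #(onLine Q) = cnt Q (hline 1) := by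
  classical
  unfold onLine cnt
  rw [card_image_of_injOn]
  · rfl
  · intro z hz w hw hzw
    rw [mem_coe, mem_filter] at hz hw
    exact UpperHalfPlane.ext_re_im hzw (hz.2.trans hw.2.symm)

/-- Every finite set with a horocycle can be moved so that the horocycle becomes the line of
height one; the number of determined horocycles does not grow. -/
theorem exists_move (P : Finset ℍ) {H : Set ℍ} (hH : IsHorocycle H) :
    ∃ Q : Finset ℍ, #Q = #P ∧ cnt Q (hline 1) = cnt P H ∧ h Q ≤ h P := by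
  classical
  obtain ⟨φ, hφ, hpre, hHφ⟩ := exists_isom hH
  refine ⟨P.image φ, card_image_of_injective _ hφ.injective, ?_,
    h_image_le hφ.surjective hpre P⟩
  unfold cnt
  rw [← card_image_of_injective ({p ∈ P | p ∈ H} : Finset ℍ) hφ.injective]
  congr 1
  ext z
  simp only [mem_filter, mem_image]
  constructor
  · rintro ⟨⟨w, hw, rfl⟩, h2⟩
    exact ⟨w, ⟨hw, (hHφ w).2 h2⟩, rfl⟩
  · rintro ⟨w, hw, rfl⟩
    exact ⟨⟨w, hw.1, rfl⟩, (hHφ w).1 hw.2⟩

/-- the lower bound from a horocycle containing all points -/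
theorem lower_zero (P : Finset ℍ) {H : Set ℍ} (hH : IsHorocycle H) (h2 : 2 ≤ cnt P H) :
    (cnt P H).choose 2 + 1 ≤ h P := by
  obtain ⟨Q, hQ, hc, hle⟩ := exists_move P hH
  refine le_trans ?_ hle
  rw [← hc, ← card_onLine]
  exact count_zero (by rw [card_onLine, hc]; exact h2) (fun a ha => mem_onLine.1 ha)

/-- the lower bound from a horocycle not containing all points -/
theorem lower_one (P : Finset ℍ) {H : Set ℍ} (hH : IsHorocycle H) (h2 : 2 ≤ cnt P H)
    (hlt : cnt P H < #P) : (cnt P H).choose 2 + 3 ≤ h P := by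
  classical
  obtain ⟨Q, hQ, hc, hle⟩ := exists_move P hH
  refine le_trans ?_ hle
  rw [← hc, ← card_onLine]
  have hA : 2 ≤ #(onLine Q) := by rw [card_onLine, hc]; exact h2
  -- a point off the line
  obtain ⟨p, hpQ, hp⟩ : ∃ p ∈ Q, p.im ≠ 1 := by
    by_contra hcon
    push Not at hcon
    have h3 : cnt Q (hline 1) = #Q := by
      unfold cnt
      rw [filter_true_of_mem]
      exact hcon
    omega
  obtain ⟨L, gL, _, _⟩ := exists_good hp (A := onLine Q) (card_pos.1 (by omega))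
  have h3 := count_one hA hp (M := L) (fun K hK => by
    obtain ⟨_, h4, h5, h6⟩ := gL.2.2.2 K hK
    exact ⟨h4, h5, h6⟩) hpQ (fun a ha => mem_onLine.1 ha)
  have h4 := gL.2.1
  omega

end Pool.Agent.HoroSmall
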