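import Pool.Agent.HoroSmall.Basic

/-!
# The least number of horocycles for sets with at most one point off a horocycle
-/

set_option autoImplicit false

open Finset UpperHalfPlane

namespace Pool.Agent.HoroSmall

open Pool.Agent.Hhelper97.Horo

open Classical in
/-- the points of the chain and the point `(0, 1/5)` -/
noncomputable def P₁ (N : ℕ) : Finset ℍ := insert q₁ ((range N).image fun i => pt (X i))

theorem card_P₁ (N : ℕ) : #(P₁ N) = N + 1 := by
  classical
  have h0 : Function.Injective fun i => pt (X i) := fun a b hab => X_injective (pt_injective hab)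
  have h1 : q₁ ∉ (range N).image fun i => pt (X i) := by
    simp only [mem_image, not_exists, not_and]
    intro i _ hi
    have := congrArg UpperHalfPlane.im hi
    norm_num at this
  rw [P₁, card_insert_of_notMem h1, card_image_of_injective _ h0, card_range]

open Classical in
/-- the horocycles determined by `P₁ N` -/
noncomputable def S₁ (N : ℕ) : Finset (Set ℍ) :=
  {hline 1} ∪ ((range N).sigma fun j => range j).image (fun s => hor (X s.2) (X s.1)) ∪
    {hor (X 0) (X 0), hor (X (N - 1)) (X N)}

theorem card_S₁ (N : ℕ) : #(S₁ N) ≤ N.choose 2 + 3 := by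
  classical
  unfold S₁
  refine (card_union_le _ _).trans ?_
  have h1 : #({hline 1} ∪ ((range N).sigma fun j => range j).image
      (fun s => hor (X s.2) (X s.1))) ≤ 1 + N.choose 2 := by
    refine (card_union_le _ _).trans ?_
    rw [card_singleton]
    have h2 : #((range N).sigma fun j => range j) = N.choose 2 := by
      rw [card_sigma]
      simp only [card_range]
      rw [Finset.sum_range_id, Nat.choose_two_right]
    have h3 := card_image_le (s := (range N).sigma fun j => range j)
      (f := fun s => hor (X s.2) (X s.1))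
    omega
  have h4 : #({hor (X 0) (X 0), hor (X (N - 1)) (X N)} : Finset (Set ℍ)) ≤ 2 := card_le_two
  omega

theorem hor_mem_S₁ {N i j : ℕ} (hij : i < j) (hj : j < N) : hor (X i) (X j) ∈ S₁ N := by
  classical
  unfold S₁
  rw [mem_union, mem_union]
  left; right
  rw [mem_image]
  exact ⟨⟨j, i⟩, by simp [hij, hj], rfl⟩

theorem pt_q₁' {N i : ℕ} {x r : ℝ} (hi : i < N) (ha : pt (X i) ∈ circ x r)
    (hq : q₁ ∈ circ x r) : circ x r ∈ S₁ N := by
  classical
  rw [circ_of_reflect ha]
  rcases reflect_q₁ (quad_q₁ ha hq) with h | h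
  · rw [h]
    rcases Nat.lt_or_ge (i + 1) N with h1 | h1
    · exact hor_mem_S₁ (by omega) h1
    · obtain rfl : N = i + 1 := by omega
      simp [S₁]
  · rw [h, hor_comm]
    rcases i with _ | i
    · simp [S₁]
    · exact hor_mem_S₁ (by omega) hi

theorem determined_P₁ {N : ℕ} : determined (P₁ N) ⊆ ↑(S₁ N) := by
  classical
  rintro H ⟨hH, p, hp, q, hq, hpq, hpH, hqH⟩
  rcases hH with ⟨c, hc, rfl⟩ | ⟨x, r, hr, rfl⟩
  · have hc1 : c = 1 := by
      simp only [P₁, mem_insert, mem_image, mem_range] at hp hq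
      rw [mem_hline] at hpH hqH
      rcases hp with rfl | ⟨i, hi, rfl⟩
      · rcases hq with rfl | ⟨j, hj, rfl⟩
        · exact absurd rfl hpq
        · exact hqH.symm
      · exact hpH.symm
    subst hc1
    simp [S₁]
  · simp only [P₁, mem_insert, mem_image, mem_range] at hp hq
    rcases hp with rfl | ⟨i, hi, rfl⟩ <;> rcases hq with rfl | ⟨j, hj, rfl⟩
    · exact absurd rfl hpq
    · exact pt_q₁' hj hqH hpH
    · exact pt_q₁' hi hpH hqH
    · have hij : X i ≠ X j := fun h => hpq (by rw [h])
      have hij' : i ≠ j := fun h => hij (by rw [h])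
      rw [circ_pt_pt hij hpH hqH]
      rcases lt_or_gt_of_ne hij' with h | h
      · exact hor_mem_S₁ h hj
      · rw [hor_comm]; exact hor_mem_S₁ h hi

theorem h_P₁_le (N : ℕ) : h (P₁ N) ≤ N.choose 2 + 3 := by
  unfold h
  refine (Set.ncard_le_ncard determined_P₁ (S₁ N).finite_toSet).trans ?_
  rw [Set.ncard_coe_finset]
  exact card_S₁ N

theorem cnt_P₁ (N : ℕ) : N ≤ cnt (P₁ N) (hline 1) := by
  classical
  unfold cnt
  have h1 : ((range N).image fun i => pt (X i)) ⊆ {p ∈ P₁ N | p ∈ hline 1} := by
    intro z hz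
    obtain ⟨i, hi, rfl⟩ := mem_image.1 hz
    rw [mem_filter]
    refine ⟨?_, pt_mem_hline _⟩
    rw [P₁, mem_insert]
    right; exact hz
  have h2 := card_le_card h1
  rwa [card_image_of_injective _ (fun a b hab => X_injective (pt_injective hab)),
    card_range] at h2

theorem lower_near {n : ℕ} (hn : 3 ≤ n) {P : Finset ℍ} (hP : #P = n) {H : Set ℍ}
    (hH : IsHorocycle H) (hc : n ≤ cnt P H + 1) : (n - 1).choose 2 + 3 ≤ h P := by
  classical
  have hle : cnt P H ≤ n := by
    rw [← hP]; exact card_filter_le _ _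
  by_cases h1 : cnt P H = n
  · have h2 := lower_zero P hH (by omega)
    rw [h1] at h2
    have h3 : n.choose 2 = (n - 1).choose 2 + (n - 1) := by
      obtain ⟨k, rfl⟩ : ∃ k, n = k + 1 := ⟨n - 1, by omega⟩
      rw [Nat.choose_succ_succ' k 1, Nat.choose_one_right]
      simp only [Nat.add_sub_cancel]
      ring
    omega
  · have h2 : cnt P H = n - 1 := by omega
    have h3 := lower_one P hH (by omega) (by omega)
    rwa [h2] at h3

theorem near_one {n : ℕ} (hn : 3 ≤ n) :
    IsLeast {k : ℕ | ∃ P : Finset ℍ, #P = n ∧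
      (∃ H : Set ℍ, IsHorocycle H ∧ n ≤ ((P : Set ℍ) ∩ H).ncard + 1) ∧ h P = k}
      ((n - 1).choose 2 + 3) := by
  constructor
  · have hc : #(P₁ (n - 1)) = n := by rw [card_P₁]; omega
    have hH : n ≤ cnt (P₁ (n - 1)) (hline 1) + 1 := by
      have := cnt_P₁ (n - 1)
      omega
    refine ⟨P₁ (n - 1), hc, ⟨hline 1, isHorocycle_hline one_pos, ?_⟩,
      le_antisymm (h_P₁_le _) (lower_near hn hc (isHorocycle_hline one_pos) hH)⟩
    rw [ncard_eq_cnt]
    exact hH
  · rintro k ⟨P, hP, ⟨H, hH, hc⟩, rfl⟩
    rw [ncard_eq_cnt] at hc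
    exact lower_near hn hP hH hc

end Pool.Agent.HoroSmall
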