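import Pool.Agent.HoroSmall.Chain

/-!
# The values `m 3`, `m 4`, `m 5`
-/

set_option autoImplicit false

open Finset UpperHalfPlane

namespace Pool.Agent.HoroSmall

open Pool.Agent.Hhelper97.Horo

theorem m_eq {n v : ℕ} (hex : ∃ P : Finset ℍ, #P = n ∧ h P ≤ v)
    (hlow : ∀ P : Finset ℍ, #P = n → v ≤ h P) : m n = v := by
  obtain ⟨P, hP, hle⟩ := hex
  unfold m
  apply le_antisymm
  · exact (Nat.sInf_le (show h P ∈ {k | ∃ P : Finset ℍ, #P = n ∧ h P = k} from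
      ⟨P, hP, rfl⟩)).trans hle
  · refine le_csInf (show Set.Nonempty {k | ∃ P : Finset ℍ, #P = n ∧ h P = k} from
      ⟨h P, P, hP, rfl⟩) ?_
    rintro k ⟨Q, hQ, rfl⟩
    exact hlow Q hQ

/-! ### lower bounds -/

theorem cnt_le (P : Finset ℍ) (H : Set ℍ) : cnt P H ≤ #P := by
  classical
  exact card_filter_le _ _

theorem low3 {P : Finset ℍ} (hP : #P = 3) : 4 ≤ h P := by
  classical
  obtain ⟨p, hp, q, hq, hpq⟩ := one_lt_card.1 (by omega : 1 < #P)
  obtain ⟨K, _, hK, _, _, h1, h2, _⟩ := two_through hpq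
  have hc : 2 ≤ cnt P K := two_le_cnt (mem_det.2 ⟨hK, p, hp, q, hq, hpq, h1, h2⟩)
  have := lower_near (n := 3) le_rfl hP hK (by omega)
  exact this

/-- if every horocycle contains at most `3` points -/
theorem sum_three {P : Finset ℍ} (h3 : ∀ H ∈ det P, cnt P H ≤ 3) :
    ∃ b ≤ h P, 2 * h P + 4 * b = 2 * (#P * (#P - 1)) := by
  classical
  refine ⟨#{H ∈ det P | cnt P H = 3}, ?_, ?_⟩
  · rw [← card_det]; exact card_filter_le _ _
  · rw [← sum_formula]
    have e : ∀ H ∈ det P, cnt P H * (cnt P H - 1) = 2 + 4 * (if cnt P H = 3 then 1 else 0) := by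
      intro H hH
      have h1 := two_le_cnt hH
      have h2 := h3 H hH
      have h4 : cnt P H = 2 ∨ cnt P H = 3 := by omega
      rcases h4 with h4 | h4 <;> rw [h4] <;> norm_num
    rw [sum_congr rfl e, sum_add_distrib, sum_const, ← mul_sum, ← card_filter, card_det,
      smul_eq_mul]
    ring

theorem low4 {P : Finset ℍ} (hP : #P = 4) : 6 ≤ h P := by
  classical
  by_cases hex : ∃ H ∈ det P, 3 ≤ cnt P H
  · obtain ⟨H, hH, h1⟩ := hex
    exact lower_near (n := 4) (by norm_num) hP (mem_det.1 hH).1 (by omega)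
  · push Not at hex
    have e : ∀ H ∈ det P, cnt P H * (cnt P H - 1) = 2 := by
      intro H hH
      have h1 := two_le_cnt hH
      have h2 := hex H hH
      have h4 : cnt P H = 2 := by omega
      rw [h4]
    have h1 := sum_formula P
    rw [sum_congr rfl e, sum_const, card_det, smul_eq_mul, hP] at h1
    omega

theorem low5 {P : Finset ℍ} (hP : #P = 5) : 8 ≤ h P := by
  classical
  by_cases hex : ∃ H ∈ det P, 4 ≤ cnt P H
  · obtain ⟨H, hH, h1⟩ := hex
    have h2 := lower_near (n := 5) (by norm_num) hP (mem_det.1 hH).1 (by omega)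
    have h3 : (5 - 1).choose 2 = 6 := by decide
    omega
  · push Not at hex
    obtain ⟨b, hb, h1⟩ := sum_three (P := P) (fun H hH => by
      have := hex H hH
      omega)
    rw [hP] at h1
    omega

/-! ### five points with eight horocycles -/

theorem exists_five : ∃ P : Finset ℍ, #P = 5 ∧ h P ≤ 8 := by
  classical
  obtain ⟨w, hw, hw0, hw1⟩ : ∃ w : ℝ, w ^ 2 = 6 ∧ 2 < w ∧ w < 5 / 2 := by
    refine ⟨Real.sqrt 6, Real.sq_sqrt (by norm_num), ?_, ?_⟩
    · rw [Real.lt_sqrt (by norm_num)]; norm_num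
    · rw [Real.sqrt_lt' (by norm_num)]; norm_num
  obtain ⟨A₁, hA₁, hA₁'⟩ : ∃ z : ℍ, z.re = 0 ∧ z.im = 3 := ⟨mkP 0 3 (by norm_num), rfl, rfl⟩
  obtain ⟨A₂, hA₂, hA₂'⟩ : ∃ z : ℍ, z.re = 0 ∧ z.im = 5 + 2 * w :=
    ⟨mkP 0 (5 + 2 * w) (by linarith), rfl, rfl⟩
  obtain ⟨A₃, hA₃, hA₃'⟩ : ∃ z : ℍ, z.re = 0 ∧ z.im = 5 - 2 * w :=
    ⟨mkP 0 (5 - 2 * w) (by linarith), rfl, rfl⟩
  obtain ⟨B₁, hB₁, hB₁'⟩ : ∃ z : ℍ, z.re = 2 ∧ z.im = 1 := ⟨mkP 2 1 (by norm_num), rfl, rfl⟩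
  obtain ⟨B₂, hB₂, hB₂'⟩ : ∃ z : ℍ, z.re = -2 ∧ z.im = 1 := ⟨mkP (-2) 1 (by norm_num), rfl, rfl⟩
  have ne_im : ∀ {z z' : ℍ}, z.im ≠ z'.im → z ≠ z' := fun h h' => h (by rw [h'])
  have ne_re : ∀ {z z' : ℍ}, z.re ≠ z'.re → z ≠ z' := fun h h' => h (by rw [h'])
  have n12 : A₁ ≠ A₂ := ne_im (by rw [hA₁', hA₂']; intro h; linarith)
  have n13 : A₁ ≠ A₃ := ne_im (by rw [hA₁', hA₃']; intro h; linarith)
  have n14 : A₁ ≠ B₁ := ne_re (by rw [hA₁, hB₁]; norm_num)
  have n15 : A₁ ≠ B₂ := ne_re (by rw [hA₁, hB₂]; norm_num)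
  have n23 : A₂ ≠ A₃ := ne_im (by rw [hA₂', hA₃']; intro h; linarith)
  have n24 : A₂ ≠ B₁ := ne_re (by rw [hA₂, hB₁]; norm_num)
  have n25 : A₂ ≠ B₂ := ne_re (by rw [hA₂, hB₂]; norm_num)
  have n34 : A₃ ≠ B₁ := ne_re (by rw [hA₃, hB₁]; norm_num)
  have n35 : A₃ ≠ B₂ := ne_re (by rw [hA₃, hB₂]; norm_num)
  have n45 : B₁ ≠ B₂ := ne_re (by rw [hB₁, hB₂]; norm_num)
  have hor' : ∀ x r : ℝ, 0 < r → IsHorocycle (circ x r) := fun x r hr => Or.inr ⟨x, r, hr, rfl⟩
  have k1 := hor' (3 + w) (4 + w) (by linarith)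
  have k2 := hor' (-(3 + w)) (4 + w) (by linarith)
  have k3 := hor' (3 - w) (4 - w) (by linarith)
  have k4 := hor' (-(3 - w)) (4 - w) (by linarith)
  have k5 := hor' (-1) 5 (by norm_num)
  have k6 := hor' 1 5 (by norm_num)
  have k7 : IsHorocycle (hline 1) := isHorocycle_hline one_pos
  have k8 := hor' 0 (5 / 2) (by norm_num)
  -- memberships
  have a1 : A₁ ∈ circ (3 + w) (4 + w) := by rw [mem_circ, hA₁, hA₁']; linear_combination hw
  have a2 : A₁ ∈ circ (-(3 + w)) (4 + w) := by rw [mem_circ, hA₁, hA₁']; linear_combination hw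
  have a3 : A₁ ∈ circ (3 - w) (4 - w) := by rw [mem_circ, hA₁, hA₁']; linear_combination hw
  have a4 : A₁ ∈ circ (-(3 - w)) (4 - w) := by rw [mem_circ, hA₁, hA₁']; linear_combination hw
  have b1 : A₂ ∈ circ (3 + w) (4 + w) := by rw [mem_circ, hA₂, hA₂']; linear_combination hw
  have b2 : A₂ ∈ circ (-(3 + w)) (4 + w) := by rw [mem_circ, hA₂, hA₂']; linear_combination hw
  have b3 : A₂ ∈ circ (-1) 5 := by rw [mem_circ, hA₂, hA₂']; linear_combination 4 * hw
  have b4 : A₂ ∈ circ 1 5 := by rw [mem_circ, hA₂, hA₂']; linear_combination 4 * hw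
  have c1 : A₃ ∈ circ (3 - w) (4 - w) := by rw [mem_circ, hA₃, hA₃']; linear_combination hw
  have c2 : A₃ ∈ circ (-(3 - w)) (4 - w) := by rw [mem_circ, hA₃, hA₃']; linear_combination hw
  have c3 : A₃ ∈ circ (-1) 5 := by rw [mem_circ, hA₃, hA₃']; linear_combination 4 * hw
  have c4 : A₃ ∈ circ 1 5 := by rw [mem_circ, hA₃, hA₃']; linear_combination 4 * hw
  have d1 : B₁ ∈ circ (3 + w) (4 + w) := by rw [mem_circ, hB₁, hB₁']; linear_combination hw
  have d2 : B₁ ∈ circ (3 - w) (4 - w) := by rw [mem_circ, hB₁, hB₁']; linear_combination hw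
  have d3 : B₁ ∈ circ (-1) 5 := by rw [mem_circ, hB₁, hB₁']; norm_num
  have d4 : B₁ ∈ hline 1 := hB₁'
  have d5 : B₁ ∈ circ 0 (5 / 2) := by rw [mem_circ, hB₁, hB₁']; norm_num
  have e1 : B₂ ∈ circ (-(3 + w)) (4 + w) := by rw [mem_circ, hB₂, hB₂']; linear_combination hw
  have e2 : B₂ ∈ circ (-(3 - w)) (4 - w) := by rw [mem_circ, hB₂, hB₂']; linear_combination hw
  have e3 : B₂ ∈ circ 1 5 := by rw [mem_circ, hB₂, hB₂']; norm_num
  have e4 : B₂ ∈ hline 1 := hB₂'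
  have e5 : B₂ ∈ circ 0 (5 / 2) := by rw [mem_circ, hB₂, hB₂']; norm_num
  -- the horocycles are different
  have dif : ∀ {x r x' r' : ℝ}, 0 < r → 0 < r' → x ≠ x' → circ x r ≠ circ x' r' :=
    fun hr hr' hx h => hx (circ_inj hr hr' h).1
  have p1 : 0 < 4 + w := by linarith
  have p2 : 0 < 4 - w := by linarith
  have f12 := dif (x := 3 + w) (x' := -(3 + w)) p1 p1 (by intro h; linarith)
  have f34 := dif (x := 3 - w) (x' := -(3 - w)) p2 p2 (by intro h; linarith)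
  have f56 := dif (x := -1) (r := 5) (x' := 1) (r' := 5) (by norm_num) (by norm_num) (by norm_num)
  have f13 := dif (x := 3 + w) (x' := 3 - w) p1 p2 (by intro h; linarith)
  have f24 := dif (x := -(3 + w)) (x' := -(3 - w)) p1 p2 (by intro h; linarith)
  have f15 := dif (x := 3 + w) (x' := -1) (r' := 5) p1 (by norm_num) (by intro h; linarith)
  have f26 := dif (x := -(3 + w)) (x' := 1) (r' := 5) p1 (by norm_num) (by intro h; linarith)
  have f35 := dif (x := 3 - w) (x' := -1) (r' := 5) p2 (by norm_num) (by intro h; linarith)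
  have f46 := dif (x := -(3 - w)) (x' := 1) (r' := 5) p2 (by norm_num) (by intro h; linarith)
  have f78 : hline 1 ≠ circ 0 (5 / 2) := (circ_ne_hline (by norm_num)).symm
  set L : List (Set ℍ) := [circ (3 + w) (4 + w), circ (-(3 + w)) (4 + w), circ (3 - w) (4 - w),
    circ (-(3 - w)) (4 - w), circ (-1) 5, circ 1 5, hline 1, circ 0 (5 / 2)] with hL
  have cov : ∀ {p q : ℍ} {K₁ K₂ : Set ℍ}, p ≠ q → IsHorocycle K₁ → IsHorocycle K₂ → K₁ ≠ K₂ →
      p ∈ K₁ → q ∈ K₁ → p ∈ K₂ → q ∈ K₂ → K₁ ∈ L → K₂ ∈ L →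
      ∀ H, IsHorocycle H → p ∈ H → q ∈ H → H ∈ L := by
    intro p q K₁ K₂ hpq hK₁ hK₂ hne h1 h2 h3 h4 h5 h6 H hH hp hq
    rcases mem_of_two hpq hK₁ hK₂ hne h1 h2 h3 h4 hH hp hq with rfl | rfl
    · exact h5
    · exact h6
  have l1 : circ (3 + w) (4 + w) ∈ L := by simp [hL]
  have l2 : circ (-(3 + w)) (4 + w) ∈ L := by rw [hL]; simp only [List.mem_cons]; tauto
  have l3 : circ (3 - w) (4 - w) ∈ L := by rw [hL]; simp only [List.mem_cons]; tauto
  have l4 : circ (-(3 - w)) (4 - w) ∈ L := by rw [hL]; simp only [List.mem_cons]; tauto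
  have l5 : circ (-1) 5 ∈ L := by rw [hL]; simp only [List.mem_cons]; tauto
  have l6 : circ 1 5 ∈ L := by rw [hL]; simp only [List.mem_cons]; tauto
  have l7 : hline 1 ∈ L := by rw [hL]; simp only [List.mem_cons]; tauto
  have l8 : circ 0 (5 / 2) ∈ L := by rw [hL]; simp only [List.mem_cons]; tauto
  have g12 := cov n12 k1 k2 f12 a1 b1 a2 b2 l1 l2
  have g13 := cov n13 k3 k4 f34 a3 c1 a4 c2 l3 l4
  have g23 := cov n23 k5 k6 f56 b3 c3 b4 c4 l5 l6
  have g14 := cov n14 k1 k3 f13 a1 d1 a3 d2 l1 l3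
  have g15 := cov n15 k2 k4 f24 a2 e1 a4 e2 l2 l4
  have g24 := cov n24 k1 k5 f15 b1 d1 b3 d3 l1 l5
  have g25 := cov n25 k2 k6 f26 b2 e1 b4 e3 l2 l6
  have g34 := cov n34 k3 k5 f35 c1 d2 c3 d3 l3 l5
  have g35 := cov n35 k4 k6 f46 c2 e2 c4 e3 l4 l6
  have g45 := cov n45 k7 k8 f78 d4 e4 d5 e5 l7 l8
  refine ⟨{A₁, A₂, A₃, B₁, B₂}, ?_, ?_⟩
  · rw [card_insert_of_notMem, card_insert_of_notMem, card_insert_of_notMem,
      card_insert_of_notMem, card_singleton]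
    · simp [n45]
    · simp [n34, n35]
    · simp [n23, n24, n25]
    · simp [n12, n13, n14, n15]
  · have hsub : determined {A₁, A₂, A₃, B₁, B₂} ⊆ (L.toFinset : Set (Set ℍ)) := by
      rintro H ⟨hH, p, hp, q, hq, hpq, hpH, hqH⟩
      rw [mem_coe, List.mem_toFinset]
      simp only [mem_insert, mem_singleton] at hp hq
      rcases hp with rfl | rfl | rfl | rfl | rfl <;> rcases hq with rfl | rfl | rfl | rfl | rfl
      · exact absurd rfl hpq
      · exact g12 H hH hpH hqH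
      · exact g13 H hH hpH hqH
      · exact g14 H hH hpH hqH
      · exact g15 H hH hpH hqH
      · exact g12 H hH hqH hpH
      · exact absurd rfl hpq
      · exact g23 H hH hpH hqH
      · exact g24 H hH hpH hqH
      · exact g25 H hH hpH hqH
      · exact g13 H hH hqH hpH
      · exact g23 H hH hqH hpH
      · exact absurd rfl hpq
      · exact g34 H hH hpH hqH
      · exact g35 H hH hpH hqH
      · exact g14 H hH hqH hpH
      · exact g24 H hH hqH hpH
      · exact g34 H hH hqH hpH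
      · exact absurd rfl hpq
      · exact g45 H hH hpH hqH
      · exact g15 H hH hqH hpH
      · exact g25 H hH hqH hpH
      · exact g35 H hH hqH hpH
      · exact g45 H hH hqH hpH
      · exact absurd rfl hpq
    have h1 := Set.ncard_le_ncard hsub (L.toFinset.finite_toSet)
    rw [Set.ncard_coe_finset] at h1
    have h2 : #L.toFinset ≤ 8 := by
      refine (List.toFinset_card_le L).trans ?_
      rw [hL]; simp
    exact h1.trans h2

theorem m_three : m 3 = 4 := by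
  refine m_eq ⟨P₁ 2, card_P₁ 2, ?_⟩ (fun _ hP => low3 hP)
  exact h_P₁_le 2

theorem m_four : m 4 = 6 := by
  refine m_eq ⟨P₁ 3, card_P₁ 3, ?_⟩ (fun _ hP => low4 hP)
  exact h_P₁_le 3

theorem m_five : m 5 = 8 := m_eq exists_five (fun _ hP => low5 hP)

end Pool.Agent.HoroSmall
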