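import Pool.Agent.HoroSmall.Five

/-!
# Six points with eleven horocycles

Let `v` be the positive root of `v^3 + 6 v^2 + 6 v - 7` and `g = sqrt v`. The six points are
`(-2 (3 + v) g, v)`, `(-2 g, v)`, `(2 g, v)`, `(2 (3 + v) g, v)`, `(0, v + 4)` and
`(0, (v + 2) (2 v + 7))`.
-/

set_option autoImplicit false

open Finset UpperHalfPlane

namespace Pool.Agent.HoroSmall

open Pool.Agent.Hhelper97.Horo

theorem exists_root : ∃ v : ℝ, v ^ 3 + 6 * v ^ 2 + 6 * v - 7 = 0 ∧ 3 / 5 < v ∧ v < 7 / 10 := by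
  have hc : ContinuousOn (fun v : ℝ => v ^ 3 + 6 * v ^ 2 + 6 * v - 7) (Set.Icc (3 / 5) (7 / 10)) := by
    fun_prop
  have h1 := intermediate_value_Icc (by norm_num : (3 / 5 : ℝ) ≤ 7 / 10) hc
  have h2 : (0 : ℝ) ∈ Set.Icc ((3 / 5 : ℝ) ^ 3 + 6 * (3 / 5) ^ 2 + 6 * (3 / 5) - 7)
      ((7 / 10 : ℝ) ^ 3 + 6 * (7 / 10) ^ 2 + 6 * (7 / 10) - 7) := by
    constructor <;> norm_num
  obtain ⟨v, ⟨h3, h4⟩, h5⟩ := h1 h2
  refine ⟨v, h5, lt_of_le_of_ne h3 ?_, lt_of_le_of_ne h4 ?_⟩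
  · rintro rfl
    norm_num at h5
  · rintro rfl
    norm_num at h5

theorem exists_six : ∃ P : Finset ℍ, #P = 6 ∧ h P ≤ 11 := by
  classical
  obtain ⟨v, hv, v0, v1⟩ := exists_root
  obtain ⟨g, hg0, hg⟩ : ∃ g : ℝ, 0 < g ∧ g ^ 2 = v :=
    ⟨Real.sqrt v, Real.sqrt_pos.2 (by linarith), Real.sq_sqrt (by linarith)⟩
  have vp : 0 < v := by linarith
  obtain ⟨a1, ha1, ha1'⟩ : ∃ z : ℍ, z.re = (-6 - 2 * v) * g ∧ z.im = v :=
    ⟨mkP ((-6 - 2 * v) * g) (v) (vp), rfl, rfl⟩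
  obtain ⟨a2, ha2, ha2'⟩ : ∃ z : ℍ, z.re = (-2) * g ∧ z.im = v :=
    ⟨mkP ((-2) * g) (v) (vp), rfl, rfl⟩
  obtain ⟨a3, ha3, ha3'⟩ : ∃ z : ℍ, z.re = 2 * g ∧ z.im = v :=
    ⟨mkP (2 * g) (v) (vp), rfl, rfl⟩
  obtain ⟨a4, ha4, ha4'⟩ : ∃ z : ℍ, z.re = (6 + 2 * v) * g ∧ z.im = v :=
    ⟨mkP ((6 + 2 * v) * g) (v) (vp), rfl, rfl⟩
  obtain ⟨p, hp, hp'⟩ : ∃ z : ℍ, z.re = 0 ∧ z.im = v + 4 :=
    ⟨mkP (0) (v + 4) (by positivity), rfl, rfl⟩
  obtain ⟨q, hq, hq'⟩ : ∃ z : ℍ, z.re = 0 ∧ z.im = (v + 2) * (2 * v + 7) :=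
    ⟨mkP (0) ((v + 2) * (2 * v + 7)) (by positivity), rfl, rfl⟩
  obtain ⟨K1, hK1⟩ : ∃ K : Set ℍ, K = hline v := ⟨_, rfl⟩
  obtain ⟨K2, hK2⟩ : ∃ K : Set ℍ, K = circ (0) ((v + 4) / 2) := ⟨_, rfl⟩
  obtain ⟨K3, hK3⟩ : ∃ K : Set ℍ, K = circ ((4 + v) * g) ((v + 1) * (v + 4) / 2) := ⟨_, rfl⟩
  obtain ⟨K4, hK4⟩ : ∃ K : Set ℍ, K = circ ((-(4 + v)) * g) ((v + 1) * (v + 4) / 2) := ⟨_, rfl⟩
  obtain ⟨K5, hK5⟩ : ∃ K : Set ℍ, K = circ ((2 + v) * g) ((v ^ 2 + 9 * v + 16) / 2) := ⟨_, rfl⟩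
  obtain ⟨K6, hK6⟩ : ∃ K : Set ℍ, K = circ ((-(2 + v)) * g) ((v ^ 2 + 9 * v + 16) / 2) := ⟨_, rfl⟩
  obtain ⟨K7, hK7⟩ : ∃ K : Set ℍ, K = circ (0) ((4 * (3 + v) ^ 2 + v) / 2) := ⟨_, rfl⟩
  obtain ⟨K8, hK8⟩ : ∃ K : Set ℍ, K = circ (((v + 2) * (v + 4)) * g) ((v + 3) ^ 2) := ⟨_, rfl⟩
  obtain ⟨K9, hK9⟩ : ∃ K : Set ℍ, K = circ ((-((v + 2) * (v + 4))) * g) ((v + 3) ^ 2) := ⟨_, rfl⟩
  obtain ⟨K10, hK10⟩ : ∃ K : Set ℍ, K = circ ((v ^ 2 + 5 * v + 3) * g) ((29 - 6 * v - 3 * v ^ 2) / 2) := ⟨_, rfl⟩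
  obtain ⟨K11, hK11⟩ : ∃ K : Set ℍ, K = circ ((-(v ^ 2 + 5 * v + 3)) * g) ((29 - 6 * v - 3 * v ^ 2) / 2) := ⟨_, rfl⟩
  have r2 : 0 < (v + 4) / 2 := by positivity
  have r3 : 0 < (v + 1) * (v + 4) / 2 := by positivity
  have r4 : 0 < (v + 1) * (v + 4) / 2 := by positivity
  have r5 : 0 < (v ^ 2 + 9 * v + 16) / 2 := by positivity
  have r6 : 0 < (v ^ 2 + 9 * v + 16) / 2 := by positivity
  have r7 : 0 < (4 * (3 + v) ^ 2 + v) / 2 := by positivity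
  have r8 : 0 < (v + 3) ^ 2 := by positivity
  have r9 : 0 < (v + 3) ^ 2 := by positivity
  have r10 : 0 < (29 - 6 * v - 3 * v ^ 2) / 2 := by nlinarith
  have r11 : 0 < (29 - 6 * v - 3 * v ^ 2) / 2 := by nlinarith
  have H1 : IsHorocycle K1 := by rw [hK1]; exact isHorocycle_hline vp
  have H2 : IsHorocycle K2 := Or.inr ⟨_, _, r2, hK2⟩
  have H3 : IsHorocycle K3 := Or.inr ⟨_, _, r3, hK3⟩
  have H4 : IsHorocycle K4 := Or.inr ⟨_, _, r4, hK4⟩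
  have H5 : IsHorocycle K5 := Or.inr ⟨_, _, r5, hK5⟩
  have H6 : IsHorocycle K6 := Or.inr ⟨_, _, r6, hK6⟩
  have H7 : IsHorocycle K7 := Or.inr ⟨_, _, r7, hK7⟩
  have H8 : IsHorocycle K8 := Or.inr ⟨_, _, r8, hK8⟩
  have H9 : IsHorocycle K9 := Or.inr ⟨_, _, r9, hK9⟩
  have H10 : IsHorocycle K10 := Or.inr ⟨_, _, r10, hK10⟩
  have H11 : IsHorocycle K11 := Or.inr ⟨_, _, r11, hK11⟩
  have m_a1_1 : a1 ∈ K1 := by rw [hK1, mem_hline, ha1']
  have m_a2_1 : a2 ∈ K1 := by rw [hK1, mem_hline, ha2']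
  have m_a3_1 : a3 ∈ K1 := by rw [hK1, mem_hline, ha3']
  have m_a4_1 : a4 ∈ K1 := by rw [hK1, mem_hline, ha4']
  have m_a1_4 : a1 ∈ K4 := by
    rw [hK4, mem_circ, ha1, ha1']
    linear_combination ((4) + (4) * v + (1) * v ^ 2) * hg + (0) * hv
  have m_a1_6 : a1 ∈ K6 := by
    rw [hK6, mem_circ, ha1, ha1']
    linear_combination ((16) + (8) * v + (1) * v ^ 2) * hg + (0) * hv
  have m_a1_7 : a1 ∈ K7 := by
    rw [hK7, mem_circ, ha1, ha1']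
    linear_combination ((36) + (24) * v + (4) * v ^ 2) * hg + (0) * hv
  have m_a1_9 : a1 ∈ K9 := by
    rw [hK9, mem_circ, ha1, ha1']
    linear_combination ((4) + (16) * v + (20) * v ^ 2 + (8) * v ^ 3 + (1) * v ^ 4) * hg + ((2) * v + (1) * v ^ 2) * hv
  have m_a2_2 : a2 ∈ K2 := by
    rw [hK2, mem_circ, ha2, ha2']
    linear_combination ((4)) * hg + (0) * hv
  have m_a2_4 : a2 ∈ K4 := by
    rw [hK4, mem_circ, ha2, ha2']
    linear_combination ((4) + (4) * v + (1) * v ^ 2) * hg + (0) * hv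
  have m_a2_5 : a2 ∈ K5 := by
    rw [hK5, mem_circ, ha2, ha2']
    linear_combination ((16) + (8) * v + (1) * v ^ 2) * hg + (0) * hv
  have m_a2_11 : a2 ∈ K11 := by
    rw [hK11, mem_circ, ha2, ha2']
    linear_combination ((1) + (10) * v + (27) * v ^ 2 + (10) * v ^ 3 + (1) * v ^ 4) * hg + ((4) * v + (1) * v ^ 2) * hv
  have m_a3_2 : a3 ∈ K2 := by
    rw [hK2, mem_circ, ha3, ha3']
    linear_combination ((4)) * hg + (0) * hv
  have m_a3_3 : a3 ∈ K3 := by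
    rw [hK3, mem_circ, ha3, ha3']
    linear_combination ((4) + (4) * v + (1) * v ^ 2) * hg + (0) * hv
  have m_a3_6 : a3 ∈ K6 := by
    rw [hK6, mem_circ, ha3, ha3']
    linear_combination ((16) + (8) * v + (1) * v ^ 2) * hg + (0) * hv
  have m_a3_10 : a3 ∈ K10 := by
    rw [hK10, mem_circ, ha3, ha3']
    linear_combination ((1) + (10) * v + (27) * v ^ 2 + (10) * v ^ 3 + (1) * v ^ 4) * hg + ((4) * v + (1) * v ^ 2) * hv
  have m_a4_3 : a4 ∈ K3 := by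
    rw [hK3, mem_circ, ha4, ha4']
    linear_combination ((4) + (4) * v + (1) * v ^ 2) * hg + (0) * hv
  have m_a4_5 : a4 ∈ K5 := by
    rw [hK5, mem_circ, ha4, ha4']
    linear_combination ((16) + (8) * v + (1) * v ^ 2) * hg + (0) * hv
  have m_a4_7 : a4 ∈ K7 := by
    rw [hK7, mem_circ, ha4, ha4']
    linear_combination ((36) + (24) * v + (4) * v ^ 2) * hg + (0) * hv
  have m_a4_8 : a4 ∈ K8 := by
    rw [hK8, mem_circ, ha4, ha4']
    linear_combination ((4) + (16) * v + (20) * v ^ 2 + (8) * v ^ 3 + (1) * v ^ 4) * hg + ((2) * v + (1) * v ^ 2) * hv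
  have m_p_2 : p ∈ K2 := by
    rw [hK2, mem_circ, hp, hp']
    linear_combination (0) * hg + (0) * hv
  have m_p_3 : p ∈ K3 := by
    rw [hK3, mem_circ, hp, hp']
    linear_combination ((16) + (8) * v + (1) * v ^ 2) * hg + (0) * hv
  have m_p_4 : p ∈ K4 := by
    rw [hK4, mem_circ, hp, hp']
    linear_combination ((16) + (8) * v + (1) * v ^ 2) * hg + (0) * hv
  have m_p_8 : p ∈ K8 := by
    rw [hK8, mem_circ, hp, hp']
    linear_combination ((64) + (96) * v + (52) * v ^ 2 + (12) * v ^ 3 + (1) * v ^ 4) * hg + ((8) + (6) * v + (1) * v ^ 2) * hv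
  have m_p_9 : p ∈ K9 := by
    rw [hK9, mem_circ, hp, hp']
    linear_combination ((64) + (96) * v + (52) * v ^ 2 + (12) * v ^ 3 + (1) * v ^ 4) * hg + ((8) + (6) * v + (1) * v ^ 2) * hv
  have m_q_5 : q ∈ K5 := by
    rw [hK5, mem_circ, hq, hq']
    linear_combination ((4) + (4) * v + (1) * v ^ 2) * hg + ((4) + (2) * v) * hv
  have m_q_6 : q ∈ K6 := by
    rw [hK6, mem_circ, hq, hq']
    linear_combination ((4) + (4) * v + (1) * v ^ 2) * hg + ((4) + (2) * v) * hv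
  have m_q_8 : q ∈ K8 := by
    rw [hK8, mem_circ, hq, hq']
    linear_combination ((64) + (96) * v + (52) * v ^ 2 + (12) * v ^ 3 + (1) * v ^ 4) * hg + ((8) + (6) * v + (1) * v ^ 2) * hv
  have m_q_9 : q ∈ K9 := by
    rw [hK9, mem_circ, hq, hq']
    linear_combination ((64) + (96) * v + (52) * v ^ 2 + (12) * v ^ 3 + (1) * v ^ 4) * hg + ((8) + (6) * v + (1) * v ^ 2) * hv
  have m_q_10 : q ∈ K10 := by
    rw [hK10, mem_circ, hq, hq']
    linear_combination ((9) + (30) * v + (31) * v ^ 2 + (10) * v ^ 3 + (1) * v ^ 4) * hg + ((30) + (14) * v + (1) * v ^ 2) * hv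
  have m_q_11 : q ∈ K11 := by
    rw [hK11, mem_circ, hq, hq']
    linear_combination ((9) + (30) * v + (31) * v ^ 2 + (10) * v ^ 3 + (1) * v ^ 4) * hg + ((30) + (14) * v + (1) * v ^ 2) * hv
  have dg : ∀ {s t : ℝ}, s ≠ t → s * g ≠ t * g := fun hne h => hne (mul_right_cancel₀ hg0.ne' h)
  have g0 : (0 : ℝ) = 0 * g := by ring
  have f_1_4 : K1 ≠ K4 := by rw [hK1, hK4]; exact (circ_ne_hline r4).symm
  have f_1_6 : K1 ≠ K6 := by rw [hK1, hK6]; exact (circ_ne_hline r6).symm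
  have f_1_7 : K1 ≠ K7 := by rw [hK1, hK7]; exact (circ_ne_hline r7).symm
  have f_1_2 : K1 ≠ K2 := by rw [hK1, hK2]; exact (circ_ne_hline r2).symm
  have f_1_5 : K1 ≠ K5 := by rw [hK1, hK5]; exact (circ_ne_hline r5).symm
  have f_1_3 : K1 ≠ K3 := by rw [hK1, hK3]; exact (circ_ne_hline r3).symm
  have f_4_9 : K4 ≠ K9 := by
    rw [hK4, hK9]
    intro h
    have h1 := (circ_inj r4 r9 h).1
    have h2 : (-(4 + v)) = (-((v + 2) * (v + 4))) := mul_right_cancel₀ hg0.ne' (by linarith : ((-(4 + v))) * g = ((-((v + 2) * (v + 4)))) * g)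
    nlinarith
  have f_2_4 : K2 ≠ K4 := by
    rw [hK2, hK4]
    intro h
    have h1 := (circ_inj r2 r4 h).1
    have h2 : 0 = (-(4 + v)) := mul_right_cancel₀ hg0.ne' (by linarith : (0) * g = ((-(4 + v))) * g)
    nlinarith
  have f_2_3 : K2 ≠ K3 := by
    rw [hK2, hK3]
    intro h
    have h1 := (circ_inj r2 r3 h).1
    have h2 : 0 = (4 + v) := mul_right_cancel₀ hg0.ne' (by linarith : (0) * g = ((4 + v)) * g)
    nlinarith
  have f_3_8 : K3 ≠ K8 := by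
    rw [hK3, hK8]
    intro h
    have h1 := (circ_inj r3 r8 h).1
    have h2 : (4 + v) = ((v + 2) * (v + 4)) := mul_right_cancel₀ hg0.ne' (by linarith : ((4 + v)) * g = (((v + 2) * (v + 4))) * g)
    nlinarith
  have f_6_9 : K6 ≠ K9 := by
    rw [hK6, hK9]
    intro h
    have h1 := (circ_inj r6 r9 h).1
    have h2 : (-(2 + v)) = (-((v + 2) * (v + 4))) := mul_right_cancel₀ hg0.ne' (by linarith : ((-(2 + v))) * g = ((-((v + 2) * (v + 4)))) * g)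
    nlinarith
  have f_5_11 : K5 ≠ K11 := by
    rw [hK5, hK11]
    intro h
    have h1 := (circ_inj r5 r11 h).1
    have h2 : (2 + v) = (-(v ^ 2 + 5 * v + 3)) := mul_right_cancel₀ hg0.ne' (by linarith : ((2 + v)) * g = ((-(v ^ 2 + 5 * v + 3))) * g)
    nlinarith
  have f_6_10 : K6 ≠ K10 := by
    rw [hK6, hK10]
    intro h
    have h1 := (circ_inj r6 r10 h).1
    have h2 : (-(2 + v)) = (v ^ 2 + 5 * v + 3) := mul_right_cancel₀ hg0.ne' (by linarith : ((-(2 + v))) * g = ((v ^ 2 + 5 * v + 3)) * g)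
    nlinarith
  have f_5_8 : K5 ≠ K8 := by
    rw [hK5, hK8]
    intro h
    have h1 := (circ_inj r5 r8 h).1
    have h2 : (2 + v) = ((v + 2) * (v + 4)) := mul_right_cancel₀ hg0.ne' (by linarith : ((2 + v)) * g = (((v + 2) * (v + 4))) * g)
    nlinarith
  have f_8_9 : K8 ≠ K9 := by
    rw [hK8, hK9]
    intro h
    have h1 := (circ_inj r8 r9 h).1
    have h2 : ((v + 2) * (v + 4)) = (-((v + 2) * (v + 4))) := mul_right_cancel₀ hg0.ne' (by linarith : (((v + 2) * (v + 4))) * g = ((-((v + 2) * (v + 4)))) * g)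
    nlinarith
  have ne_im : ∀ {z z' : ℍ}, z.im ≠ z'.im → z ≠ z' := fun h h' => h (by rw [h'])
  have ne_re : ∀ {z z' : ℍ}, z.re ≠ z'.re → z ≠ z' := fun h h' => h (by rw [h'])
  have n_a1_a2 : a1 ≠ a2 := ne_re (by rw [ha1, ha2]; intro h; nlinarith)
  have n_a1_a3 : a1 ≠ a3 := ne_re (by rw [ha1, ha3]; intro h; nlinarith)
  have n_a1_a4 : a1 ≠ a4 := ne_re (by rw [ha1, ha4]; intro h; nlinarith)
  have n_a1_p : a1 ≠ p := ne_im (by rw [ha1', hp']; intro h; nlinarith)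
  have n_a1_q : a1 ≠ q := ne_im (by rw [ha1', hq']; intro h; nlinarith)
  have n_a2_a3 : a2 ≠ a3 := ne_re (by rw [ha2, ha3]; intro h; nlinarith)
  have n_a2_a4 : a2 ≠ a4 := ne_re (by rw [ha2, ha4]; intro h; nlinarith)
  have n_a2_p : a2 ≠ p := ne_im (by rw [ha2', hp']; intro h; nlinarith)
  have n_a2_q : a2 ≠ q := ne_im (by rw [ha2', hq']; intro h; nlinarith)
  have n_a3_a4 : a3 ≠ a4 := ne_re (by rw [ha3, ha4]; intro h; nlinarith)
  have n_a3_p : a3 ≠ p := ne_im (by rw [ha3', hp']; intro h; nlinarith)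
  have n_a3_q : a3 ≠ q := ne_im (by rw [ha3', hq']; intro h; nlinarith)
  have n_a4_p : a4 ≠ p := ne_im (by rw [ha4', hp']; intro h; nlinarith)
  have n_a4_q : a4 ≠ q := ne_im (by rw [ha4', hq']; intro h; nlinarith)
  have n_p_q : p ≠ q := ne_im (by rw [hp', hq']; intro h; nlinarith)
  set L : List (Set ℍ) := [K1, K2, K3, K4, K5, K6, K7, K8, K9, K10, K11] with hL
  have cov : ∀ {p q : ℍ} {K₁ K₂ : Set ℍ}, p ≠ q → IsHorocycle K₁ → IsHorocycle K₂ → K₁ ≠ K₂ →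
      p ∈ K₁ → q ∈ K₁ → p ∈ K₂ → q ∈ K₂ → K₁ ∈ L → K₂ ∈ L →
      ∀ H, IsHorocycle H → p ∈ H → q ∈ H → H ∈ L := by
    intro p q K₁ K₂ hpq hK₁ hK₂ hne h1 h2 h3 h4 h5 h6 H hH hp hq
    rcases mem_of_two hpq hK₁ hK₂ hne h1 h2 h3 h4 hH hp hq with rfl | rfl
    · exact h5
    · exact h6
  have l1 : K1 ∈ L := by rw [hL]; simp only [List.mem_cons]; tauto
  have l2 : K2 ∈ L := by rw [hL]; simp only [List.mem_cons]; tauto
  have l3 : K3 ∈ L := by rw [hL]; simp only [List.mem_cons]; tauto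
  have l4 : K4 ∈ L := by rw [hL]; simp only [List.mem_cons]; tauto
  have l5 : K5 ∈ L := by rw [hL]; simp only [List.mem_cons]; tauto
  have l6 : K6 ∈ L := by rw [hL]; simp only [List.mem_cons]; tauto
  have l7 : K7 ∈ L := by rw [hL]; simp only [List.mem_cons]; tauto
  have l8 : K8 ∈ L := by rw [hL]; simp only [List.mem_cons]; tauto
  have l9 : K9 ∈ L := by rw [hL]; simp only [List.mem_cons]; tauto
  have l10 : K10 ∈ L := by rw [hL]; simp only [List.mem_cons]; tauto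
  have l11 : K11 ∈ L := by rw [hL]; simp only [List.mem_cons]; tauto
  have c_a1_a2 := cov n_a1_a2 H1 H4 f_1_4 m_a1_1 m_a2_1 m_a1_4 m_a2_4 l1 l4
  have c_a1_a3 := cov n_a1_a3 H1 H6 f_1_6 m_a1_1 m_a3_1 m_a1_6 m_a3_6 l1 l6
  have c_a1_a4 := cov n_a1_a4 H1 H7 f_1_7 m_a1_1 m_a4_1 m_a1_7 m_a4_7 l1 l7
  have c_a2_a3 := cov n_a2_a3 H1 H2 f_1_2 m_a2_1 m_a3_1 m_a2_2 m_a3_2 l1 l2
  have c_a2_a4 := cov n_a2_a4 H1 H5 f_1_5 m_a2_1 m_a4_1 m_a2_5 m_a4_5 l1 l5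
  have c_a3_a4 := cov n_a3_a4 H1 H3 f_1_3 m_a3_1 m_a4_1 m_a3_3 m_a4_3 l1 l3
  have c_a1_p := cov n_a1_p H4 H9 f_4_9 m_a1_4 m_p_4 m_a1_9 m_p_9 l4 l9
  have c_a2_p := cov n_a2_p H2 H4 f_2_4 m_a2_2 m_p_2 m_a2_4 m_p_4 l2 l4
  have c_a3_p := cov n_a3_p H2 H3 f_2_3 m_a3_2 m_p_2 m_a3_3 m_p_3 l2 l3
  have c_a4_p := cov n_a4_p H3 H8 f_3_8 m_a4_3 m_p_3 m_a4_8 m_p_8 l3 l8
  have c_a1_q := cov n_a1_q H6 H9 f_6_9 m_a1_6 m_q_6 m_a1_9 m_q_9 l6 l9
  have c_a2_q := cov n_a2_q H5 H11 f_5_11 m_a2_5 m_q_5 m_a2_11 m_q_11 l5 l11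
  have c_a3_q := cov n_a3_q H6 H10 f_6_10 m_a3_6 m_q_6 m_a3_10 m_q_10 l6 l10
  have c_a4_q := cov n_a4_q H5 H8 f_5_8 m_a4_5 m_q_5 m_a4_8 m_q_8 l5 l8
  have c_p_q := cov n_p_q H8 H9 f_8_9 m_p_8 m_q_8 m_p_9 m_q_9 l8 l9
  refine ⟨{a1, a2, a3, a4, p, q}, ?_, ?_⟩
  · rw [card_insert_of_notMem, card_insert_of_notMem, card_insert_of_notMem,
      card_insert_of_notMem, card_insert_of_notMem, card_singleton]
    · simp [n_p_q]
    · simp [n_a4_p, n_a4_q]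
    · simp [n_a3_a4, n_a3_p, n_a3_q]
    · simp [n_a2_a3, n_a2_a4, n_a2_p, n_a2_q]
    · simp [n_a1_a2, n_a1_a3, n_a1_a4, n_a1_p, n_a1_q]
  · have hsub : determined {a1, a2, a3, a4, p, q} ⊆ (L.toFinset : Set (Set ℍ)) := by
      rintro H ⟨hH, x, hx, y, hy, hxy, hxH, hyH⟩
      rw [mem_coe, List.mem_toFinset]
      simp only [mem_insert, mem_singleton] at hx hy
      rcases hx with rfl | rfl | rfl | rfl | rfl | rfl <;>
        rcases hy with rfl | rfl | rfl | rfl | rfl | rfl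
      · exact absurd rfl hxy
      · exact c_a1_a2 H hH hxH hyH
      · exact c_a1_a3 H hH hxH hyH
      · exact c_a1_a4 H hH hxH hyH
      · exact c_a1_p H hH hxH hyH
      · exact c_a1_q H hH hxH hyH
      · exact c_a1_a2 H hH hyH hxH
      · exact absurd rfl hxy
      · exact c_a2_a3 H hH hxH hyH
      · exact c_a2_a4 H hH hxH hyH
      · exact c_a2_p H hH hxH hyH
      · exact c_a2_q H hH hxH hyH
      · exact c_a1_a3 H hH hyH hxH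
      · exact c_a2_a3 H hH hyH hxH
      · exact absurd rfl hxy
      · exact c_a3_a4 H hH hxH hyH
      · exact c_a3_p H hH hxH hyH
      · exact c_a3_q H hH hxH hyH
      · exact c_a1_a4 H hH hyH hxH
      · exact c_a2_a4 H hH hyH hxH
      · exact c_a3_a4 H hH hyH hxH
      · exact absurd rfl hxy
      · exact c_a4_p H hH hxH hyH
      · exact c_a4_q H hH hxH hyH
      · exact c_a1_p H hH hyH hxH
      · exact c_a2_p H hH hyH hxH
      · exact c_a3_p H hH hyH hxH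
      · exact c_a4_p H hH hyH hxH
      · exact absurd rfl hxy
      · exact c_p_q H hH hxH hyH
      · exact c_a1_q H hH hyH hxH
      · exact c_a2_q H hH hyH hxH
      · exact c_a3_q H hH hyH hxH
      · exact c_a4_q H hH hyH hxH
      · exact c_p_q H hH hyH hxH
      · exact absurd rfl hxy
    have h1 := Set.ncard_le_ncard hsub (L.toFinset.finite_toSet)
    rw [Set.ncard_coe_finset] at h1
    have h2 : #L.toFinset ≤ 11 := by
      refine (List.toFinset_card_le L).trans ?_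
      rw [hL]; simp
    exact h1.trans h2

end Pool.Agent.HoroSmall
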